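import Pool.Agent.RecDim.Final

/-! Explicit bounds for the computable chain partition and for the recursive dimension of
3-crown-free orders; the proofs are those of `Pool.Agent.RecDim` with the bounds tracked. -/

set_option autoImplicit false

namespace Pool.Agent.RecDim

theorem bound_step (w m : ℕ) (hm : m ≤ 93 ^ (2 ^ w - 1)) :
    m + 23 + (23 * m * 3) * m ≤ 93 ^ (2 ^ (w + 1) - 1) := by
  have h1 : 2 ^ (w + 1) - 1 = (2 ^ w - 1) + (2 ^ w - 1) + 1 := by
    have : 1 ≤ 2 ^ w := Nat.one_le_two_pow
    rw [pow_succ]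
    omega
  rw [h1, pow_succ, pow_add]
  set B := 93 ^ (2 ^ w - 1) with hB
  have hB1 : 1 ≤ B := Nat.one_le_pow _ _ (by norm_num)
  nlinarith [mul_le_mul hm hm (Nat.zero_le _) (Nat.zero_le _), mul_le_mul hB1 hB1 (Nat.zero_le _) (Nat.zero_le _)]

/-- **Computable chain partition** with an explicit bound: every computable order of width at
most `w` has a computable partition into at most `93 ^ (2 ^ w - 1)` chains. -/
theorem chainPartB : ∀ w : ℕ, ∃ c : ℕ, c ≤ 93 ^ (2 ^ w - 1) ∧ ∀ le : ℕ → ℕ → Prop,
    ComputablePred (fun p : ℕ × ℕ => le p.1 p.2) → PO le → ∀ P : ℕ → Prop, ComputablePred P →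
    Width le P w → ∃ col : ℕ → ℕ, Computable col ∧ (∀ x, P x → col x < c) ∧
      ∀ x y, P x → P y → col x = col y → le x y ∨ le y x := by
  classical
  intro w
  induction w with
  | zero =>
    refine ⟨1, Nat.one_le_pow _ _ (by norm_num), fun le _ _ P _ hw => ⟨fun _ => 0, Computable.const 0, fun _ _ => Nat.one_pos,
      fun x y hx _ _ => ?_⟩⟩
    have := hw {x} (by simpa using hx) (fun a ha b hb hab => by
      simp at ha hb; exact absurd (ha.trans hb.symm) hab)
    simp at this
  | succ w ih =>
    rcases w with _ | k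
    · refine ⟨1, Nat.one_le_pow _ _ (by norm_num), fun le _ po P _ hw => ⟨fun _ => 0, Computable.const 0, fun _ _ => Nat.one_pos,
        fun x y hx hy _ => ?_⟩⟩
      by_contra h
      push Not at h
      have hxy : x ≠ y := fun e => h.1 (e ▸ po.refl _)
      have := hw {x, y} (by simp [hx, hy]) (fun a ha b hb hab => by
        simp at ha hb
        rcases ha with rfl | rfl <;> rcases hb with rfl | rfl
        · exact absurd rfl hab
        · exact h
        · exact ⟨h.2, h.1⟩
        · exact absurd rfl hab)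
      rw [Finset.card_pair hxy] at this
      omega
    · obtain ⟨m, hm, IH⟩ := ih
      refine ⟨m + 23 + (23 * m * 3) * m, bound_step _ _ hm, fun le hle po P hP hw => ?_⟩
      obtain ⟨A, hA, hA2⟩ := exA hle po hP k
      obtain ⟨R, hR, hR2⟩ := exR hle hP hA
      have S : Stp le P A R k := ⟨po, hw, hA2, hR2⟩
      obtain ⟨colA, hcA, hcA1, hcA2⟩ := IH le hle po A hA S.wA
      obtain ⟨nc, hnc, hnc1, hnc2⟩ := exNc hle S hA hR
      obtain ⟨rr, hrr, hrr2⟩ := search (α := ℕ) (p := fun z r => R r ∧ ∃ p, p < z ∧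
        (A p ∧ Inc le p z ∧ Inc le p r)) (f := fun z => z) (by
        refine CP.and (CP.comp hR Computable.snd) ?_
        refine CP.ex_lt (p := fun (q : ℕ × ℕ) p => A p ∧ Inc le p q.1 ∧ Inc le p q.2) ?_
          Computable.fst
        exact CP.and (CP.comp hA Computable.snd) (CP.and
          (inc_comp hle Computable.snd (Computable.fst.comp Computable.fst))
          (inc_comp hle Computable.snd (Computable.snd.comp Computable.fst)))) Computable.id
      obtain ⟨pp, hpp, hpp2⟩ := search (α := ℕ) (p := fun z p => A p ∧ Inc le p z ∧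
        Inc le p (rr z)) (f := fun z => z) (by
        exact CP.and (CP.comp hA Computable.snd) (CP.and
          (inc_comp hle Computable.snd Computable.fst)
          (inc_comp hle Computable.snd (hrr.comp Computable.fst)))) Computable.id
      have hass : ∀ z, P z → ¬ A z → ¬ R z → R (rr z) ∧ A (pp z) ∧ Inc le (pp z) z ∧
          Inc le (pp z) (rr z) := by
        intro z h1 h2 h3
        have h4 : ∃ r, r < z ∧ R r ∧ ∃ p, p < z ∧ (A p ∧ Inc le p z ∧ Inc le p r) := by
          by_contra h4
          refine h3 ((S.hR z).2 ⟨h1, h2, fun r hr hRr p hp hAp i1 i2 => h4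
            ⟨r, hr, hRr, p, hp, hAp, i1, i2⟩⟩)
        have h5 := hrr2 z h4
        have h6 := hpp2 z h5.2.1.2
        exact ⟨h5.2.1.1, h6.2.1⟩
      -- the type
      let ty : ℕ → ℕ := fun z => if le (rr z) z then 0 else if le z (rr z) then 1 else 2
      have hty : Computable ty := by
        refine ComputablePred.ite (Computable.const 0) ?_ (CP.comp hle (hrr.pair Computable.id))
        exact ComputablePred.ite (Computable.const 1) (Computable.const 2)
          (CP.comp hle (Computable.id.pair hrr))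
      have hty3 : ∀ z, ty z < 3 := by
        intro z
        show (if le (rr z) z then 0 else if le z (rr z) then 1 else 2) < 3
        split_ifs <;> omega
      have hty0 : ∀ z, ty z = 0 → le (rr z) z := by
        intro z h
        by_contra h1
        have : ty z = if le z (rr z) then 1 else 2 := if_neg h1
        rw [this] at h
        split_ifs at h
      have hty1 : ∀ z, ty z = 1 → le z (rr z) := by
        intro z h
        by_contra h1
        have : ty z = if le (rr z) z then 0 else 2 := by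
          show (if le (rr z) z then 0 else if le z (rr z) then 1 else 2) = _
          rw [if_neg h1]
        rw [this] at h
        split_ifs at h <;> omega
      have hty2 : ∀ z, ty z ≠ 0 → ty z ≠ 1 → Inc le z (rr z) := by
        intro z h0 h1
        constructor
        · intro h
          by_cases h2 : le (rr z) z
          · exact h0 (if_pos h2)
          · exact h1 (by
              show (if le (rr z) z then 0 else if le z (rr z) then 1 else 2) = 1
              rw [if_neg h2, if_pos h])
        · intro h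
          exact h0 (if_pos h)
      let key : ℕ → ℕ := fun z => (nc (rr z) * m + colA (pp z)) * 3 + ty z
      have hkey : Computable key := by
        have c1 : Computable (fun z => nc (rr z) * m) :=
          Primrec.nat_mul.to_comp.comp (hnc.comp hrr) (Computable.const m)
        have c2 : Computable (fun z => nc (rr z) * m + colA (pp z)) :=
          Primrec.nat_add.to_comp.comp c1 (hcA.comp hpp)
        have c3 : Computable (fun z => (nc (rr z) * m + colA (pp z)) * 3) :=
          Primrec.nat_mul.to_comp.comp c2 (Computable.const 3)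
        exact Primrec.nat_add.to_comp.comp c3 hty
      let Q : ℕ → Prop := fun z => P z ∧ ¬ A z ∧ ¬ R z
      have hQ : ComputablePred Q := CP.and hP (CP.and (CP.not hA) (CP.not hR))
      have hkeyQ : ∀ z, Q z → key z < 23 * m * 3 := by
        intro z hz
        obtain ⟨h1, h2, _, _⟩ := hass z hz.1 hz.2.1 hz.2.2
        exact enc_lt (enc_lt (hnc1 _ h1) (hcA1 _ h2)) (hty3 z)
      have hkeyinj : ∀ z z', Q z → Q z' → key z = key z' →
          nc (rr z) = nc (rr z') ∧ colA (pp z) = colA (pp z') ∧ ty z = ty z' := by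
        intro z z' hz hz' h
        obtain ⟨_, h2, _, _⟩ := hass z hz.1 hz.2.1 hz.2.2
        obtain ⟨_, h2', _, _⟩ := hass z' hz'.1 hz'.2.1 hz'.2.2
        obtain ⟨e1, e2⟩ := enc_inj (hty3 z) (hty3 z') h
        obtain ⟨e3, e4⟩ := enc_inj (hcA1 _ h2) (hcA1 _ h2') e1
        exact ⟨e3, e4, e2⟩
      let le' : ℕ → ℕ → Prop := fun x y => key x < key y ∨ (key x = key y ∧ le x y)
      have hle' : ComputablePred (fun p : ℕ × ℕ => le' p.1 p.2) :=
        CP.or (CP.lt (hkey.comp Computable.fst) (hkey.comp Computable.snd))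
          (CP.and (CP.eq (hkey.comp Computable.fst) (hkey.comp Computable.snd)) hle)
      have po' : PO le' := by
        refine ⟨fun x => Or.inr ⟨rfl, po.refl x⟩, ?_, ?_⟩
        · rintro x y (h | ⟨h, h'⟩) (g | ⟨g, g'⟩)
          · omega
          · omega
          · omega
          · exact po.anti _ _ h' g'
        · rintro x y z (h | ⟨h, h'⟩) (g | ⟨g, g'⟩)
          · exact Or.inl (by omega)
          · exact Or.inl (by omega)
          · exact Or.inl (by omega)
          · exact Or.inr ⟨by omega, po.trans _ _ _ h' g'⟩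
      have hw' : Width le' Q (k + 1) := by
        intro s hs ha
        have hk : ∀ z ∈ s, ∀ z' ∈ s, key z = key z' := by
          intro z hz z' hz'
          by_contra hne
          have hzz : z ≠ z' := fun e => hne (e ▸ rfl)
          have h := ha z hz z' hz' hzz
          rcases lt_or_gt_of_ne hne with h1 | h1
          · exact h.1 (Or.inl h1)
          · exact h.2 (Or.inl h1)
        have ha' : Anti le s := by
          intro z hz z' hz' hzz
          have h := ha z hz z' hz' hzz
          exact ⟨fun e => h.1 (Or.inr ⟨hk z hz z' hz', e⟩),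
            fun e => h.2 (Or.inr ⟨(hk z hz z' hz').symm, e⟩)⟩
        exact S.part_width colA rr pp nc ty hcA2 hass hnc2 hty0 hty1 hty2 hs ha'
          (fun z hz z' hz' => (hkeyinj z z' (hs z hz) (hs z' hz') (hk z hz z' hz')).1)
          (fun z hz z' hz' => (hkeyinj z z' (hs z hz) (hs z' hz') (hk z hz z' hz')).2.1)
          (fun z hz z' hz' => (hkeyinj z z' (hs z hz) (hs z' hz') (hk z hz z' hz')).2.2)
      obtain ⟨colQ, hcQ, hcQ1, hcQ2⟩ := IH le' hle' po' Q hQ hw'
      let col : ℕ → ℕ := fun x => if A x then colA x else if R x then m + nc x else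
        (m + 23) + (key x * m + colQ x)
      have hcol : Computable col := by
        refine ComputablePred.ite hcA ?_ hA
        refine ComputablePred.ite ?_ ?_ hR
        · exact Primrec.nat_add.to_comp.comp (Computable.const m) hnc
        · have c1 : Computable (fun z => key z * m) :=
            Primrec.nat_mul.to_comp.comp hkey (Computable.const m)
          have c2 : Computable (fun z => key z * m + colQ z) :=
            Primrec.nat_add.to_comp.comp c1 hcQ
          exact Primrec.nat_add.to_comp.comp (Computable.const (m + 23)) c2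
      have colAx : ∀ x, A x → col x = colA x := fun x h => if_pos h
      have colRx : ∀ x, R x → col x = m + nc x := fun x h => by
        show (if A x then colA x else if R x then m + nc x else _) = _
        rw [if_neg (S.RA h), if_pos h]
      have colQx : ∀ x, Q x → col x = (m + 23) + (key x * m + colQ x) := fun x h => by
        show (if A x then colA x else if R x then m + nc x else _) = _
        rw [if_neg h.2.1, if_neg h.2.2]
      have hcases : ∀ x, P x → A x ∨ R x ∨ Q x := by
        intro x hx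
        by_cases h1 : A x
        · exact Or.inl h1
        · by_cases h2 : R x
          · exact Or.inr (Or.inl h2)
          · exact Or.inr (Or.inr ⟨hx, h1, h2⟩)
      refine ⟨col, hcol, ?_, ?_⟩
      · intro x hx
        rcases hcases x hx with h | h | h
        · rw [colAx x h]
          have := hcA1 x h
          omega
        · rw [colRx x h]
          have := hnc1 x h
          omega
        · rw [colQx x h]
          have := enc_lt (hkeyQ x h) (hcQ1 x h)
          omega
      · intro x y hx hy hxy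
        rcases hcases x hx with h | h | h <;> rcases hcases y hy with g | g | g
        · rw [colAx x h, colAx y g] at hxy
          exact hcA2 x y h g hxy
        · rw [colAx x h, colRx y g] at hxy
          have := hcA1 x h
          omega
        · rw [colAx x h, colQx y g] at hxy
          have := hcA1 x h
          omega
        · rw [colRx x h, colAx y g] at hxy
          have := hcA1 y g
          omega
        · rw [colRx x h, colRx y g] at hxy
          by_cases e : x = y
          · exact Or.inl (e ▸ po.refl _)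
          · obtain ⟨n, hn⟩ := hnc2 x y h g e (by omega)
            exact hn.imp S.path_le S.path_le
        · rw [colRx x h, colQx y g] at hxy
          have := hnc1 x h
          omega
        · rw [colQx x h, colAx y g] at hxy
          have := hcA1 y g
          omega
        · rw [colQx x h, colRx y g] at hxy
          have := hnc1 y g
          omega
        · rw [colQx x h, colQx y g] at hxy
          obtain ⟨e1, e2⟩ := enc_inj (hcQ1 x h) (hcQ1 y g) (by omega : key x * m + colQ x =
            key y * m + colQ y)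
          rcases hcQ2 x y h g e2 with h1 | h1
          · rcases h1 with h1 | ⟨_, h1⟩
            · omega
            · exact Or.inl h1
          · rcases h1 with h1 | ⟨_, h1⟩
            · omega
            · exact Or.inr h1

theorem pow_self_mono (c B : ℕ) (h : c ≤ B) (hB : 1 ≤ B) : c ^ c ≤ B ^ B :=
  (Nat.pow_le_pow_left h c).trans (Nat.pow_le_pow_right hB h)

theorem mainB : ∀ w : ℕ, ∃ d : ℕ, d ≤ (93 ^ (2 ^ w - 1)) ^ (93 ^ (2 ^ w - 1)) ∧ ∀ P : ℕ → Prop, ∀ r : ℕ → ℕ → Prop,
    ComputablePred P →
    ComputablePred (fun p : ℕ × ℕ => r p.1 p.2) →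
    (∀ x, P x → r x x) →
    (∀ x y, P x → P y → r x y → r y x → x = y) →
    (∀ x y z, P x → P y → P z → r x y → r y z → r x z) →
    (∀ s : Finset ℕ, (∀ x ∈ s, P x) →
        (∀ x ∈ s, ∀ y ∈ s, x ≠ y → ¬ r x y ∧ ¬ r y x) → s.card ≤ w) →
    (¬ ∃ a₁ a₂ a₃ b₁ b₂ b₃ : ℕ,
        P a₁ ∧ P a₂ ∧ P a₃ ∧ P b₁ ∧ P b₂ ∧ P b₃ ∧
        r a₁ b₂ ∧ r a₁ b₃ ∧ r a₂ b₁ ∧ r a₂ b₃ ∧ r a₃ b₁ ∧ r a₃ b₂ ∧
        (¬ r a₁ b₁ ∧ ¬ r b₁ a₁) ∧ (¬ r a₂ b₂ ∧ ¬ r b₂ a₂) ∧
        (¬ r a₃ b₃ ∧ ¬ r b₃ a₃) ∧
        (¬ r a₁ a₂ ∧ ¬ r a₂ a₁) ∧ (¬ r a₁ a₃ ∧ ¬ r a₃ a₁) ∧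
        (¬ r a₂ a₃ ∧ ¬ r a₃ a₂) ∧
        (¬ r b₁ b₂ ∧ ¬ r b₂ b₁) ∧ (¬ r b₁ b₃ ∧ ¬ r b₃ b₁) ∧
        (¬ r b₂ b₃ ∧ ¬ r b₃ b₂)) →
    ∃ L : Fin d → ℕ → ℕ → Prop,
      (∀ i, ComputablePred (fun p : ℕ × ℕ => L i p.1 p.2)) ∧
      (∀ i, ∀ x, P x → L i x x) ∧
      (∀ i, ∀ x y, P x → P y → L i x y → L i y x → x = y) ∧
      (∀ i, ∀ x y z, P x → P y → P z → L i x y → L i y z → L i x z) ∧
      (∀ i, ∀ x y, P x → P y → L i x y ∨ L i y x) ∧
      (∀ x y, P x → P y → (r x y ↔ ∀ i, L i x y)) := by
  intro w
  obtain ⟨c, hcB, hc⟩ := chainPartB w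
  refine ⟨c ^ c, pow_self_mono c _ hcB (Nat.one_le_pow _ _ (by norm_num)),
    fun P r hP hr rrefl ranti rtrans hwidth hcrown => ?_⟩
  let le : ℕ → ℕ → Prop := fun x y => x = y ∨ (P x ∧ P y ∧ r x y)
  have hle : ComputablePred (fun p : ℕ × ℕ => le p.1 p.2) :=
    CP.or (CP.eq Computable.fst Computable.snd) (CP.and (CP.comp hP Computable.fst)
      (CP.and (CP.comp hP Computable.snd) hr))
  have po : PO le := by
    refine ⟨fun x => Or.inl rfl, ?_, ?_⟩
    · rintro x y (h | ⟨h1, h2, h3⟩) (g | ⟨g1, g2, g3⟩)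
      · exact h
      · exact h
      · exact g.symm
      · exact ranti x y h1 h2 h3 g3
    · rintro x y z (h | ⟨h1, h2, h3⟩) (g | ⟨g1, g2, g3⟩)
      · exact Or.inl (h.trans g)
      · subst h; exact Or.inr ⟨g1, g2, g3⟩
      · subst g; exact Or.inr ⟨h1, h2, h3⟩
      · exact Or.inr ⟨h1, g2, rtrans x y z h1 h2 g2 h3 g3⟩
  have hler : ∀ x y, P x → P y → (le x y ↔ r x y) := by
    intro x y hx hy
    constructor
    · rintro (h | ⟨_, _, h⟩)
      · subst h; exact rrefl x hx
      · exact h
    · exact fun h => Or.inr ⟨hx, hy, h⟩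
  have hup : ∀ x p, P x → le x p → P p := by
    rintro x p hx (h | h)
    · exact h ▸ hx
    · exact h.2.1
  have hdn : ∀ q y, P y → le q y → P q := by
    rintro x p hx (h | h)
    · exact h ▸ hx
    · exact h.1
  have hw : Width le P w := by
    intro s hs ha
    refine hwidth s hs (fun x hx y hy hxy => ?_)
    have := ha x hx y hy hxy
    rw [Inc, hler x y (hs x hx) (hs y hy), hler y x (hs y hy) (hs x hx)] at this
    exact this
  have hno : NoCrown le P := by
    intro x y hx hy hxy p q p' q' hp hq hp' hq' h1 h2 h3 h4 h5 h6 h7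
    by_contra h8
    apply hcrown
    refine ⟨x, q, q', y, p, p', hx, hq, hq', hy, hp, hp', (hler _ _ hx hp).1 h1,
      (hler _ _ hx hp').1 h2, (hler _ _ hq hy).1 h3, (hler _ _ hq hp').1 h5,
      (hler _ _ hq' hy).1 h4, (hler _ _ hq' hp).1 h6, ?_⟩
    simp only [← hler _ _ hx hy, ← hler _ _ hy hx, ← hler _ _ hq hp, ← hler _ _ hp hq,
      ← hler _ _ hq' hp', ← hler _ _ hp' hq', ← hler _ _ hx hq, ← hler _ _ hq hx,
      ← hler _ _ hx hq', ← hler _ _ hq' hx, ← hler _ _ hq hq', ← hler _ _ hq' hq,
      ← hler _ _ hy hp, ← hler _ _ hp hy, ← hler _ _ hy hp', ← hler _ _ hp' hy,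
      ← hler _ _ hp hp', ← hler _ _ hp' hp]
    have t := po.trans
    refine ⟨hxy, ⟨h7, fun e => hxy.1 (t _ _ _ h1 (t _ _ _ e h3))⟩,
      ⟨h8, fun e => hxy.1 (t _ _ _ h2 (t _ _ _ e h4))⟩,
      ⟨fun e => hxy.1 (t _ _ _ e h3), fun e => h7 (t _ _ _ e h1)⟩,
      ⟨fun e => hxy.1 (t _ _ _ e h4), fun e => h8 (t _ _ _ e h2)⟩,
      ⟨fun e => h7 (t _ _ _ e h6), fun e => h8 (t _ _ _ e h5)⟩,
      ⟨fun e => h7 (t _ _ _ h3 e), fun e => hxy.1 (t _ _ _ h1 e)⟩,
      ⟨fun e => h8 (t _ _ _ h4 e), fun e => hxy.1 (t _ _ _ h2 e)⟩,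
      ⟨fun e => h8 (t _ _ _ h6 e), fun e => h7 (t _ _ _ h5 e)⟩⟩
  obtain ⟨col, hcol, hcol1, hcol2⟩ := hc le hle po P hP hw
  let wt : (Fin c → Fin c) → ℕ → ℕ := fun ρ x => (List.ofFn (fun i => (ρ i : ℕ))).getD (col x) 0
  have hwt : ∀ ρ, Computable (wt ρ) := fun ρ => comp_getD 0 (Computable.const _) hcol
  have hwt2 : ∀ ρ x (hx : col x < c), wt ρ x = ρ ⟨col x, hx⟩ := by
    intro ρ x hx
    show (List.ofFn (fun i => (ρ i : ℕ))).getD (col x) 0 = _
    rw [List.getD_eq_getElem _ _ (by rw [List.length_ofFn]; exact hx)]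
    simp
  have hex := fun ρ => onlineExt le hle po.refl po.anti po.trans (wt ρ) (hwt ρ)
  choose L0 hL0 using hex
  refine ⟨fun i => L0 (finFunctionFinEquiv.symm i), fun i => (hL0 _).1,
    fun i x _ => (hL0 _).2.1 x, fun i x y _ _ => (hL0 _).2.2.1 x y,
    fun i x y z _ _ _ => (hL0 _).2.2.2.1 x y z, fun i x y _ _ => (hL0 _).2.2.2.2.1 x y, ?_⟩
  intro x y hx hy
  constructor
  · intro h i
    exact (hL0 _).2.2.2.2.2.1 x y ((hler x y hx hy).2 h)
  · intro h
    by_contra hxy
    rw [← hler x y hx hy] at hxy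
    by_cases hyx : le y x
    · have h1 : L0 (finFunctionFinEquiv.symm (finFunctionFinEquiv (fun i => i))) x y :=
        h (finFunctionFinEquiv (fun i => i))
      rw [Equiv.symm_apply_apply] at h1
      have h2 := (hL0 (fun i => i)).2.2.2.2.2.1 y x hyx
      have h3 := (hL0 (fun i => i)).2.2.1 x y h1 h2
      exact hxy (h3 ▸ po.refl _)
    · obtain ⟨ρ, hρ⟩ := rank_exists (c := c) po hup hdn hcol2 hno hx hy ⟨hxy, hyx⟩
      have h1 : L0 (finFunctionFinEquiv.symm (finFunctionFinEquiv ρ)) x y :=
        h (finFunctionFinEquiv ρ)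
      rw [Equiv.symm_apply_apply] at h1
      refine (hL0 ρ).2.2.2.2.2.2 x y hxy (fun p q hp hq hqp => ?_) h1
      have hp1 := hcol1 p (hup _ _ hx hp)
      have hq1 := hcol1 q (hdn _ _ hy hq)
      rw [hwt2 ρ q hq1, hwt2 ρ p hp1]
      exact hρ p q hp hq hqp hp1 hq1

end Pool.Agent.RecDim
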